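import Pool.Agent.KK.StmtsE

/-!
# Squad KK, row E_SYM: symmetry between `X` and its complement
-/

set_option autoImplicit false

namespace Pool.Agent.KK.E.H81

variable {V : Type} [Fintype V] [DecidableEq V]

theorem inter_compl' (M X : Finset V) : M ∩ Xᶜ = M \ X := by
  ext v
  simp

theorem sdiff_compl' (M X : Finset V) : M \ Xᶜ = M ∩ X := by
  ext v
  simp

theorem amb_symm {H : Finset (Finset V)} {X : Finset V} {p q B : ℕ} {δ : ℝ}
    (h : Amb H X p q B δ) : Amb H Xᶜ q p B δ := by
  have e : q + p + 2 = p + q + 2 := by omega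
  have e' : B + q + p + 2 = B + p + q + 2 := by omega
  constructor
  · rw [e]
    exact h.uni
  · rw [e]
    exact h.dirac
  · exact h.pos
  · exact h.small
  · exact h.lo'
  · exact h.hi'
  · rw [compl_compl]
    exact h.lo
  · rw [compl_compl]
    exact h.hi
  · rw [e, e']
    exact h.big

theorem e_sym (h02 : StmtE02) : StmtE07 := by
  intro V _ _ H X hX hXc
  have hD : ∀ M a b, D H Xᶜ M b a = D H X M a b := by
    intro M a b
    have hne : ∀ i, (lets X a b i).Nonempty := by
      rintro (i | i)
      · exact hX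
      · exact hXc
    have h1 := h02 V (Fin a ⊕ Fin b) (Fin b ⊕ Fin a) (lets X a b) Sum.swap hne
      (Equiv.sumComm (Fin b) (Fin a)).injective (fun f => M ∪ Finset.univ.image f ∈ H)
    have h2 : lets X a b ∘ Sum.swap = lets Xᶜ b a := by
      funext i
      rcases i with i | i
      · rfl
      · simp [lets]
    rw [h2] at h1
    unfold D
    rw [← h1]
    congr 1
    funext f
    have h3 : Finset.univ.image (f ∘ (Sum.swap : Fin b ⊕ Fin a → Fin a ⊕ Fin b)) =
        Finset.univ.image f := by
      ext v
      simp only [Finset.mem_image, Finset.mem_univ, true_and, Function.comp]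
      constructor
      · rintro ⟨i, hi⟩
        exact ⟨_, hi⟩
      · rintro ⟨i, hi⟩
        exact ⟨i.swap, by rw [Sum.swap_swap]; exact hi⟩
    rw [h3]
  have hM : ∀ M a b, Mix H Xᶜ M b a = Mix H X M a b := by
    intro M a b
    have hne : ∀ i, (Sum.elim (lets X a b) (fun t : Bool => sd X t) i).Nonempty := by
      rintro ((i | i) | i)
      · exact hX
      · exact hXc
      · cases i
        · exact hXc
        · exact hX
    have hinj : Function.Injective
        (Sum.map Sum.swap not : (Fin b ⊕ Fin a) ⊕ Bool → (Fin a ⊕ Fin b) ⊕ Bool) :=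
      Sum.map_injective.2 ⟨(Equiv.sumComm (Fin b) (Fin a)).injective, Bool.not_injective⟩
    have h1 := h02 V ((Fin a ⊕ Fin b) ⊕ Bool) ((Fin b ⊕ Fin a) ⊕ Bool)
      (Sum.elim (lets X a b) (fun t : Bool => sd X t)) (Sum.map Sum.swap not) hne hinj
      (fun f => insert (f (Sum.inr true)) (M ∪ Finset.univ.image fun i => f (Sum.inl i)) ∈ H ∧
        insert (f (Sum.inr false)) (M ∪ Finset.univ.image fun i => f (Sum.inl i)) ∈ H)
    have h2 : Sum.elim (lets X a b) (fun t : Bool => sd X t) ∘ Sum.map Sum.swap not =
        Sum.elim (lets Xᶜ b a) (fun t : Bool => sd Xᶜ t) := by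
      funext i
      rcases i with (i | i) | i
      · rfl
      · simp [lets]
      · cases i <;> simp [sd]
    rw [h2] at h1
    unfold Mix
    rw [← h1]
    congr 1
    funext f
    have h3 : (Finset.univ.image fun i : Fin b ⊕ Fin a =>
        (f ∘ (Sum.map Sum.swap not : (Fin b ⊕ Fin a) ⊕ Bool → (Fin a ⊕ Fin b) ⊕ Bool))
          (Sum.inl i)) = Finset.univ.image fun i => f (Sum.inl i) := by
      ext v
      simp only [Finset.mem_image, Finset.mem_univ, true_and, Function.comp, Sum.map_inl]
      constructor
      · rintro ⟨i, hi⟩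
        exact ⟨_, hi⟩
      · rintro ⟨i, hi⟩
        exact ⟨i.swap, by rw [Sum.swap_swap]; exact hi⟩
    rw [h3]
    simp only [Function.comp, Sum.map_inr, Bool.not_true, Bool.not_false]
    exact propext and_comm
  have hN : ∀ p q η M, Non H Xᶜ q p η M ↔ Non H X p q η M := by
    intro p q η M
    unfold Non
    rw [inter_compl', sdiff_compl', hD]
    tauto
  refine ⟨hD, hM, hN, ?_, ?_⟩
  · intro p q η M
    unfold Mst
    simp only [hN]
  · intro p q B δ h
    exact amb_symm h

end Pool.Agent.KK.E.H81
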