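import Pool.Agent.KK.StmtsW

/-!
# Squad KK, row FIB: a first filling
-/

set_option autoImplicit false

namespace Pool.Agent.KK.H81

variable {V : Type} [Fintype V] [DecidableEq V]

/-- number of occurrences -/
def ct {α : Type} [DecidableEq α] (L : List α) (s : α) : ℕ := L.countP fun a => decide (a = s)

theorem ct_nil {α : Type} [DecidableEq α] (s : α) : ct ([] : List α) s = 0 := rfl

theorem ct_cons {α : Type} [DecidableEq α] (a : α) (L : List α) (s : α) :
    ct (a :: L) s = ct L s + if a = s then 1 else 0 := by
  unfold ct
  rw [List.countP_cons]
  simp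

omit [Fintype V] [DecidableEq V] in
theorem fx_inl (w : V) (L : List (Slot V)) : fx (Sum.inl w :: L) = w :: fx L := rfl

omit [Fintype V] [DecidableEq V] in
theorem fx_inr (b : Bool) (L : List (Slot V)) : fx (Sum.inr b :: L) = fx L := rfl

omit [Fintype V] in
theorem count_fx (L : List (Slot V)) (v : V) : ct (fx L) v = ct L (Sum.inl v) := by
  induction L with
  | nil => rfl
  | cons a L ih =>
    rcases a with w | b
    · rw [fx_inl, ct_cons, ct_cons, ih]
      simp
    · rw [fx_inr, ct_cons, ih]
      simp

omit [Fintype V] in
theorem cX_eq (X : Finset V) (L : List (Slot V)) :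
    cX X L = (fx L).countP (fun v => decide (v ∈ X)) + ct L (Sum.inr true) := by
  induction L with
  | nil => rfl
  | cons a L ih =>
    rcases a with w | b
    · have e : cX X (Sum.inl w :: L) = cX X L + if decide (w ∈ X) = true then 1 else 0 :=
        List.countP_cons
      rw [e, fx_inl, List.countP_cons, ct_cons, ih]
      simp
      omega
    · have e : cX X (Sum.inr b :: L) = cX X L + if b = true then 1 else 0 :=
        List.countP_cons
      rw [e, fx_inr, ct_cons, ih]
      simp
      omega

omit [Fintype V] in
theorem length_eq (L : List (Slot V)) :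
    L.length = (fx L).length + ct L (Sum.inr true) + ct L (Sum.inr false) := by
  induction L with
  | nil => rfl
  | cons a L ih =>
    rcases a with w | b
    · rw [fx_inl, List.length_cons, List.length_cons, ct_cons, ct_cons, ih]
      simp
      omega
    · rw [fx_inr, List.length_cons, ct_cons, ct_cons, ih]
      cases b <;> simp <;> omega

theorem card_get {α : Type} [DecidableEq α] (L : List α) (s : α) :
    (Finset.univ.filter fun i : Fin L.length => L.get i = s).card = ct L s := by
  have h1 : (Finset.univ : Finset (Fin L.length)).val.map L.get = (L : Multiset α) := by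
    rw [Fin.univ_val_map, List.ofFn_get]
  have h2 := congrArg (Multiset.countP (fun a => a = s)) h1
  rw [Multiset.coe_countP, Multiset.countP_map] at h2
  unfold ct
  rw [← h2]
  rfl

theorem ct_nodup {α : Type} [DecidableEq α] {L : List α} (hL : L.Nodup) (s : α) :
    ct L s = if s ∈ L then 1 else 0 := by
  have h := hL.count (a := s)
  rw [← h]
  unfold ct List.count
  congr 1

/-- the colour of a vertex -/
def col (X : Finset V) (L : List (Slot V)) (v : V) : Slot V :=
  if v ∈ fx L then Sum.inl v else Sum.inr (decide (v ∈ X))

omit [Fintype V] in
theorem col_mem (X : Finset V) {L : List (Slot V)} {v : V} (h : v ∈ fx L) :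
    col X L v = Sum.inl v := if_pos h

omit [Fintype V] in
theorem col_not (X : Finset V) {L : List (Slot V)} {v : V} (h : v ∉ fx L) :
    col X L v = Sum.inr (decide (v ∈ X)) := if_neg h

theorem card_col (X : Finset V) (L : List (Slot V)) (hL : L.length = Fintype.card V)
    (hn : (fx L).Nodup) (hX : cX X L = X.card) (s : Slot V) :
    (Finset.univ.filter fun v : V => col X L v = s).card = ct L s := by
  set F : Finset V := (fx L).toFinset with hF
  have hmem : ∀ v, v ∈ fx L ↔ v ∈ F := fun v => by rw [hF, List.mem_toFinset]
  have hFc : F.card = (fx L).length := List.toFinset_card_of_nodup hn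
  have hFX : (F.filter fun v => v ∈ X).card = (fx L).countP (fun v => decide (v ∈ X)) := by
    rw [List.countP_eq_length_filter, ← List.toFinset_card_of_nodup (hn.filter _)]
    congr 1
    ext v
    simp [hF]
  have h1 : (Finset.univ.filter fun v : V => v ∉ F ∧ v ∈ X).card + (F.filter fun v => v ∈ X).card =
      X.card := by
    rw [← Finset.card_union_of_disjoint]
    · congr 1
      ext v
      simp only [Finset.mem_union, Finset.mem_filter, Finset.mem_univ, true_and]
      tauto
    · rw [Finset.disjoint_left]
      intro v hv hv'
      exact (Finset.mem_filter.1 hv).2.1 (Finset.mem_filter.1 hv').1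
  have h2 : (Finset.univ.filter fun v : V => v ∉ F ∧ v ∈ X).card +
      (Finset.univ.filter fun v : V => v ∉ F ∧ v ∉ X).card + F.card = Fintype.card V := by
    rw [← Finset.card_union_of_disjoint, ← Finset.card_union_of_disjoint, ← Finset.card_univ]
    · congr 1
      ext v
      simp only [Finset.mem_union, Finset.mem_filter, Finset.mem_univ, true_and, iff_true]
      tauto
    · rw [Finset.disjoint_left]
      intro v hv hv'
      rcases Finset.mem_union.1 hv with h | h
      · exact (Finset.mem_filter.1 h).2.1 hv'
      · exact (Finset.mem_filter.1 h).2.1 hv'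
    · rw [Finset.disjoint_left]
      intro v hv hv'
      exact (Finset.mem_filter.1 hv').2.2 (Finset.mem_filter.1 hv).2.2
  have h3 := cX_eq X L
  have h4 := length_eq L
  rcases s with w | b
  · rw [← count_fx, ct_nodup hn]
    by_cases hw : w ∈ fx L
    · rw [if_pos hw]
      have : (Finset.univ.filter fun v : V => col X L v = Sum.inl w) = {w} := by
        ext v
        rw [Finset.mem_filter, Finset.mem_singleton]
        constructor
        · rintro ⟨_, h⟩
          by_cases h5 : v ∈ fx L
          · rw [col_mem X h5] at h
            exact Sum.inl.inj h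
          · rw [col_not X h5] at h
            simp at h
        · rintro rfl
          exact ⟨Finset.mem_univ _, col_mem X hw⟩
      rw [this, Finset.card_singleton]
    · rw [if_neg hw, Finset.card_eq_zero, Finset.filter_eq_empty_iff]
      intro v _ h
      by_cases h5 : v ∈ fx L
      · rw [col_mem X h5] at h
        exact hw ((Sum.inl.inj h) ▸ h5)
      · rw [col_not X h5] at h
        simp at h
  · have key : (Finset.univ.filter fun v : V => col X L v = Sum.inr b) =
        Finset.univ.filter fun v : V => v ∉ F ∧ decide (v ∈ X) = b := by
      ext v
      rw [Finset.mem_filter, Finset.mem_filter, ← hmem]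
      refine and_congr_right fun _ => ?_
      by_cases h5 : v ∈ fx L
      · rw [col_mem X h5]
        simp [h5]
      · rw [col_not X h5]
        simp [h5]
    rw [key]
    cases b
    · have : (Finset.univ.filter fun v : V => v ∉ F ∧ decide (v ∈ X) = false) =
          Finset.univ.filter fun v : V => v ∉ F ∧ v ∉ X := by
        ext v
        simp
      rw [this]
      omega
    · have : (Finset.univ.filter fun v : V => v ∉ F ∧ decide (v ∈ X) = true) =
          Finset.univ.filter fun v : V => v ∉ F ∧ v ∈ X := by
        ext v
        simp
      rw [this]
      omega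

theorem fib : FibStmt := by
  intro V _ _ X L hL hn hX
  have hc : ∀ s : Slot V, Nonempty ({i : Fin L.length // L.get i = s} ≃
      {v : V // col X L v = s}) := by
    intro s
    refine Fintype.card_eq.1 ?_
    rw [Fintype.card_subtype, Fintype.card_subtype, card_get, card_col X L hL hn hX]
  refine ⟨Equiv.ofFiberEquiv (fun s => (hc s).some), fun i => ?_⟩
  exact Equiv.ofFiberEquiv_map (fun s => (hc s).some) i

end Pool.Agent.KK.H81
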