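import Pool.Agent.KK.StmtsG

/-!
# G_BAD (squad KK, block G): bad completions of a window by `D`

Proof of `StmtG01`.  (StmtE02 is not needed.)
-/

set_option autoImplicit false

namespace Pool.Agent.KK.E.H81

open Pool.Agent.KK

theorem gb_q2 (V : Type) [DecidableEq V] (v : V) (b : Bool) :
    ((Sum.inl v : Slot V) == Sum.inr b) = false := rfl

theorem gb_q3 (V : Type) [DecidableEq V] (a b : Bool) :
    ((Sum.inr a : Slot V) == Sum.inr b) = (a == b) := by
  cases a <;> cases b <;> rfl

/-- The free entries of a completion, split by letters. -/
theorem gb_split (V : Type) [Fintype V] [DecidableEq V] (X : Finset V) :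
    ∀ s : List (Slot V), ∃ Φ : List V → List V × List V,
      (∀ e, List.Forall₂ (Fit X) s e → (Φ e).1.length = s.count (Sum.inr true) ∧
        (Φ e).2.length = s.count (Sum.inr false) ∧ (∀ v ∈ (Φ e).1, v ∈ X) ∧
        (∀ v ∈ (Φ e).2, v ∈ Xᶜ) ∧
        e.toFinset = (fx s).toFinset ∪ ((Φ e).1.toFinset ∪ (Φ e).2.toFinset)) ∧
      (∀ e e', List.Forall₂ (Fit X) s e → List.Forall₂ (Fit X) s e' → Φ e = Φ e' → e = e') := by
  intro s
  induction s with
  | nil =>
    refine ⟨fun _ => ([], []), ?_, ?_⟩
    · intro e he
      cases he
      refine ⟨by simp, by simp, by simp, by simp, by simp [fx]⟩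
    · intro e e' he he' _
      cases he
      cases he'
      rfl
  | cons x s ih =>
    obtain ⟨Φ, h1, h2⟩ := ih
    rcases x with v | b
    · refine ⟨fun e => Φ e.tail, ?_, ?_⟩
      · intro e he
        cases he with
        | cons hw hs =>
          rename_i w e
          obtain ⟨a1, a2, a3, a4, a5⟩ := h1 _ hs
          have hw' : v = w := hw
          subst hw'
          refine ⟨?_, ?_, a3, a4, ?_⟩
          · simp only [List.tail_cons]
            rw [a1]
            simp [List.count_cons, gb_q2]
          · simp only [List.tail_cons]
            rw [a2]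
            simp [List.count_cons, gb_q2]
          · simp only [List.tail_cons, List.toFinset_cons, a5, fx, List.filterMap_cons,
              Sum.getLeft?_inl, Finset.insert_union]
      · intro e e' he he' hee
        cases he with
        | cons hw hs =>
          cases he' with
          | cons hw' hs' =>
            have e1 := h2 _ _ hs hs' hee
            have e2 : _ = _ := Eq.trans (Eq.symm (show v = _ from hw)) (show v = _ from hw')
            rw [e1, e2]
    · cases b with
      | true =>
        refine ⟨fun e => match e with
          | [] => ([], [])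
          | w :: e => (w :: (Φ e).1, (Φ e).2), ?_, ?_⟩
        · intro e he
          cases he with
          | cons hw hs =>
            rename_i w e
            obtain ⟨a1, a2, a3, a4, a5⟩ := h1 _ hs
            have hw' : w ∈ X := (show (w ∈ X ↔ true = true) from hw).2 rfl
            refine ⟨?_, ?_, ?_, a4, ?_⟩
            · simp [List.count_cons, gb_q3, a1]
            · simp [List.count_cons, gb_q3, a2]
            · intro u hu
              rcases List.mem_cons.1 hu with rfl | hu
              · exact hw'
              · exact a3 u hu
            · simp only [List.toFinset_cons, a5, fx, List.filterMap_cons, Sum.getLeft?_inr,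
                Finset.insert_union, Finset.union_insert]
        · intro e e' he he' hee
          cases he with
          | cons hw hs =>
            cases he' with
            | cons hw' hs' =>
              simp only [Prod.mk.injEq, List.cons.injEq] at hee
              obtain ⟨⟨b1, b2⟩, b3⟩ := hee
              rw [b1, h2 _ _ hs hs' (Prod.ext b2 b3)]
      | false =>
        refine ⟨fun e => match e with
          | [] => ([], [])
          | w :: e => ((Φ e).1, w :: (Φ e).2), ?_, ?_⟩
        · intro e he
          cases he with
          | cons hw hs =>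
            rename_i w e
            obtain ⟨a1, a2, a3, a4, a5⟩ := h1 _ hs
            have hw' : w ∈ Xᶜ := by
              rw [Finset.mem_compl]
              intro hX
              have := (show (w ∈ X ↔ false = true) from hw).1 hX
              cases this
            refine ⟨?_, ?_, a3, ?_, ?_⟩
            · simp [List.count_cons, gb_q3, a1]
            · simp [List.count_cons, gb_q3, a2]
            · intro u hu
              rcases List.mem_cons.1 hu with rfl | hu
              · exact hw'
              · exact a4 u hu
            · simp only [List.toFinset_cons, a5, fx, List.filterMap_cons, Sum.getLeft?_inr,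
                Finset.insert_union, Finset.union_insert]
        · intro e e' he he' hee
          cases he with
          | cons hw hs =>
            cases he' with
            | cons hw' hs' =>
              simp only [Prod.mk.injEq, List.cons.injEq] at hee
              obtain ⟨b1, b2, b3⟩ := hee
              rw [b2, h2 _ _ hs hs' (Prod.ext b1 b3)]

/-- Number of free slots. -/
theorem gb_fr (V : Type) [Fintype V] [DecidableEq V] : ∀ s : List (Slot V),
    s.count (Sum.inr true) + s.count (Sum.inr false) = fr s := by
  intro s
  induction s with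
  | nil => simp [fr]
  | cons x s ih =>
    unfold fr at ih ⊢
    rcases x with v | b
    · simp only [List.count_cons, List.countP_cons, gb_q2, Sum.isRight_inl]
      simpa using ih
    · cases b with
      | true =>
        simp only [List.count_cons, List.countP_cons, gb_q3, Sum.isRight_inr]
        simp
        omega
      | false =>
        simp only [List.count_cons, List.countP_cons, gb_q3, Sum.isRight_inr]
        simp
        omega

/-- **G01**. -/
theorem g_bad (_h2 : StmtE02) : StmtG01 := by
  intro V _ _ H X s hX hY
  classical
  obtain ⟨Φ, h1, h2⟩ := gb_split V X s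
  obtain ⟨v₀, hv₀⟩ := hX
  set a := s.count (Sum.inr true) with ha
  set b := s.count (Sum.inr false) with hb
  set M := (fx s).toFinset with hM
  -- the box
  set c : Fin a ⊕ Fin b → Finset V := lets X a b with hc
  set A : Set (Fin a ⊕ Fin b → V) :=
    {f | (∀ i, f i ∈ c i) ∧ M ∪ Finset.univ.image f ∈ H} with hA
  set B : Set (Fin a ⊕ Fin b → V) :=
    {f | (∀ i, f i ∈ c i) ∧ M ∪ Finset.univ.image f ∉ H} with hB
  have hAB : A ∪ B = {f | ∀ i, f i ∈ c i} := by
    ext f
    simp only [hA, hB, Set.mem_union, Set.mem_ofPred_eq]
    tauto
  have hdis : Disjoint A B := by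
    rw [Set.disjoint_left]
    rintro f ⟨_, hf⟩ ⟨_, hf'⟩
    exact hf' hf
  have hcard : A.ncard + B.ncard = ∏ i, (c i).card := by
    rw [← Set.ncard_union_eq hdis (Set.toFinite _) (Set.toFinite _), hAB]
    have : {f : Fin a ⊕ Fin b → V | ∀ i, f i ∈ c i} = ↑(Fintype.piFinset c) := by
      ext f
      simp
    rw [this, Set.ncard_coe_finset, Fintype.card_piFinset]
  have hprod : ((∏ i, (c i).card : ℕ) : ℝ) ≤ (Fintype.card V : ℝ) ^ fr s := by
    rw [hc]
    have e1 : (∏ i, (lets X a b i).card) = X.card ^ a * Xᶜ.card ^ b := by
      rw [Fintype.prod_sum_type]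
      simp [lets]
    rw [e1, ← gb_fr V s, pow_add]
    push_cast
    have x1 : (X.card : ℝ) ≤ (Fintype.card V : ℝ) := by exact_mod_cast Finset.card_le_univ X
    have x2 : (Xᶜ.card : ℝ) ≤ (Fintype.card V : ℝ) := by exact_mod_cast Finset.card_le_univ Xᶜ
    exact mul_le_mul (pow_le_pow_left₀ (by positivity) x1 _)
      (pow_le_pow_left₀ (by positivity) x2 _) (by positivity) (by positivity)
  have hpos : 0 < ((∏ i, (c i).card : ℕ) : ℝ) := by
    have : 0 < ∏ i, (c i).card := by
      apply Finset.prod_pos
      intro i _
      rcases i with i | i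
      · exact Finset.card_pos.2 ⟨v₀, hv₀⟩
      · exact Finset.card_pos.2 hY
    exact_mod_cast this
  have hD : D H X M a b = (A.ncard : ℝ) / ((∏ i, (c i).card : ℕ) : ℝ) := by
    unfold D dens
    push_cast
    rfl
  have hB1 : (B.ncard : ℝ) = (1 - D H X M a b) * ((∏ i, (c i).card : ℕ) : ℝ) := by
    have hc' : (A.ncard : ℝ) + (B.ncard : ℝ) = ((∏ i, (c i).card : ℕ) : ℝ) := by
      exact_mod_cast hcard
    rw [hD, sub_mul, div_mul_cancel₀ _ hpos.ne', one_mul]
    linarith
  have hD1 : 0 ≤ 1 - D H X M a b := by
    have h0 : 0 ≤ (B.ncard : ℝ) := Nat.cast_nonneg _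
    rw [hB1] at h0
    exact nonneg_of_mul_nonneg_left h0 hpos
  have hinj : (BadC H X s).ncard ≤ B.ncard := by
    refine Set.ncard_le_ncard_of_injOn
      (fun e => Sum.elim (fun i : Fin a => (Φ e).1.getD i v₀) (fun i : Fin b => (Φ e).2.getD i v₀))
      ?_ ?_ (Set.toFinite _)
    · rintro e ⟨he, hnd, heH⟩
      obtain ⟨a1, a2, a3, a4, a5⟩ := h1 e he
      refine ⟨?_, ?_⟩
      · rintro (i | i)
        · have hi : (i : ℕ) < (Φ e).1.length := by rw [a1]; exact i.2
          show (Φ e).1.getD i v₀ ∈ X
          rw [List.getD_eq_getElem _ _ hi]
          exact a3 _ (List.getElem_mem hi)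
        · have hi : (i : ℕ) < (Φ e).2.length := by rw [a2]; exact i.2
          show (Φ e).2.getD i v₀ ∈ Xᶜ
          rw [List.getD_eq_getElem _ _ hi]
          exact a4 _ (List.getElem_mem hi)
      · have e2 : Finset.univ.image (Sum.elim (fun i : Fin a => (Φ e).1.getD i v₀)
            (fun i : Fin b => (Φ e).2.getD i v₀)) = (Φ e).1.toFinset ∪ (Φ e).2.toFinset := by
          ext u
          simp only [Finset.mem_image, Finset.mem_univ, true_and, Finset.mem_union,
            List.mem_toFinset]
          constructor
          · rintro ⟨i | i, rfl⟩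
            · left
              have hi : (i : ℕ) < (Φ e).1.length := by rw [a1]; exact i.2
              show (Φ e).1.getD i v₀ ∈ _
              rw [List.getD_eq_getElem _ _ hi]
              exact List.getElem_mem hi
            · right
              have hi : (i : ℕ) < (Φ e).2.length := by rw [a2]; exact i.2
              show (Φ e).2.getD i v₀ ∈ _
              rw [List.getD_eq_getElem _ _ hi]
              exact List.getElem_mem hi
          · rintro (hu | hu)
            · obtain ⟨i, hi, rfl⟩ := List.mem_iff_getElem.1 hu
              refine ⟨Sum.inl ⟨i, by rw [← a1]; exact hi⟩, ?_⟩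
              show (Φ e).1.getD i v₀ = _
              rw [List.getD_eq_getElem _ _ hi]
            · obtain ⟨i, hi, rfl⟩ := List.mem_iff_getElem.1 hu
              refine ⟨Sum.inr ⟨i, by rw [← a2]; exact hi⟩, ?_⟩
              show (Φ e).2.getD i v₀ = _
              rw [List.getD_eq_getElem _ _ hi]
        show M ∪ Finset.univ.image (Sum.elim (fun i : Fin a => (Φ e).1.getD i v₀)
            (fun i : Fin b => (Φ e).2.getD i v₀)) ∉ H
        rw [e2, ← a5]
        exact heH
    · rintro e ⟨he, _, _⟩ e' ⟨he', _, _⟩ hee
      obtain ⟨a1, a2, -, -, -⟩ := h1 e he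
      obtain ⟨b1, b2, -, -, -⟩ := h1 e' he'
      apply h2 e e' he he'
      apply Prod.ext
      · apply List.ext_getElem (by rw [a1, b1])
        intro i hi hi'
        have := congrFun hee (Sum.inl ⟨i, by rw [← a1]; exact hi⟩)
        have h3 : (Φ e).1.getD i v₀ = (Φ e').1.getD i v₀ := this
        rw [List.getD_eq_getElem _ _ hi, List.getD_eq_getElem _ _ hi'] at h3
        exact h3
      · apply List.ext_getElem (by rw [a2, b2])
        intro i hi hi'
        have := congrFun hee (Sum.inr ⟨i, by rw [← a2]; exact hi⟩)
        have h3 : (Φ e).2.getD i v₀ = (Φ e').2.getD i v₀ := this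
        rw [List.getD_eq_getElem _ _ hi, List.getD_eq_getElem _ _ hi'] at h3
        exact h3
  calc ((BadC H X s).ncard : ℝ) ≤ (B.ncard : ℝ) := by exact_mod_cast hinj
    _ = (1 - D H X M a b) * ((∏ i, (c i).card : ℕ) : ℝ) := hB1
    _ ≤ (1 - D H X M a b) * (Fintype.card V : ℝ) ^ fr s := mul_le_mul_of_nonneg_left hprod hD1

end Pool.Agent.KK.E.H81
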